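import Pool.Agent.Helper76.S7.StC

/-!
# Project W7, module L2: level 49, symbols with `W = -1`, `* = 1` are determined up to constants by two values
-/

set_option autoImplicit false

namespace Pool.Agent.Helper2.S7

open Pool.Agent.Helper14.CV (Homog EqC act Tl StFar StFex)
open Pool.Agent.Helper28.WK (SymP)
open Pool.Agent.Helper14.W5 Pool.Agent.Helper76.S7

/-- The cusps which occur (up to signs). -/
private def cus : List (ℕ × ℕ) :=
  [(1, 0), (0, 1), (1, 1), (2, 1), (1, 2), (3, 1), (1, 3), (3, 2), (2, 3), (4, 1), (5, 2)]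

private theorem rep_cus : ∀ m ∈ rep49, (m.1.natAbs, m.2.2.1.natAbs) ∈ cus ∧
    (m.2.1.natAbs, m.2.2.2.natAbs) ∈ cus := by
  decide

/-- The argument in the coordinate `N(p, q) = K(p, 7q) - K(∞)`. -/
private theorem core (hrep : S7Rep) (hfar : StFar) (N : ℤ → ℤ → ℂ) (hH : Homog N)
    (hst : ∀ p q : ℤ, (p ≠ 0 ∨ q ≠ 0) → N (-p) q = N p q)
    (hS : ∀ p q : ℤ, (p ≠ 0 ∨ q ≠ 0) → N (-q) p = -N p q)
    (hG : ∀ a b c d : ℤ, a * d - 49 * b * c = 1 → ∃ k : ℂ, ∀ p q : ℤ, (p ≠ 0 ∨ q ≠ 0) →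
      N (a * p + 7 * b * q) (7 * c * p + d * q) = N p q + k)
    (v0 : N 1 0 = 0) (v1 : N 1 1 = 0) (v2 : N 2 1 = 0) :
    ∀ p q : ℤ, (p ≠ 0 ∨ q ≠ 0) → N p q = 0 := by
  have hsw : ∀ p q : ℤ, (p ≠ 0 ∨ q ≠ 0) → N q p = -N p q := by
    intro p q h
    rw [← hS p q h, hst q p (by tauto)]
  have hng : ∀ p q : ℤ, (p ≠ 0 ∨ q ≠ 0) → N (-p) (-q) = N p q := by
    intro p q h
    have := hH (-1) p q (by norm_num) h
    simpa using this
  have hng2 : ∀ p q : ℤ, (p ≠ 0 ∨ q ≠ 0) → N p (-q) = N p q := by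
    intro p q h
    rw [← hst p (-q) (by omega), hng p q h]
  have habs : ∀ p q : ℤ, (p ≠ 0 ∨ q ≠ 0) → N p q = N (p.natAbs : ℤ) (q.natAbs : ℤ) := by
    intro p q h
    have h1 : N p q = N (p.natAbs : ℤ) q := by
      rcases Int.natAbs_eq p with e | e
      · rw [← e]
      · have h2 := hst (p.natAbs : ℤ) q (by omega)
        rw [← e] at h2
        exact h2
    have h3 : N (p.natAbs : ℤ) q = N (p.natAbs : ℤ) (q.natAbs : ℤ) := by
      rcases Int.natAbs_eq q with e | e
      · rw [← e]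
      · have h2 := hng2 (p.natAbs : ℤ) (q.natAbs : ℤ) (by omega)
        rw [← e] at h2
        exact h2
    rw [h1, h3]
  -- the cusp 4/3
  have v43 : N 4 3 = 0 := by
    obtain ⟨k, hk⟩ := hG 6 (-1) 1 (-8) (by norm_num)
    have e1 := hk 1 1 (by norm_num)
    have e2 := hk 4 3 (by norm_num)
    norm_num at e1 e2
    have e3 := hng 1 1 (by norm_num)
    have e4 := hsw 4 3 (by norm_num)
    rw [e3, v1] at e1
    rw [e4] at e2
    linear_combination (-1 / 2 : ℂ) * e2 + (1 / 2 : ℂ) * e1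
  -- the cusp 3/2
  have v32 : N 3 2 = 0 := by
    obtain ⟨k, hk⟩ := hG 5 (-1) (-1) 10 (by norm_num)
    have e1 := hk 2 1 (by norm_num)
    have e2 := hk 1 1 (by norm_num)
    norm_num at e1 e2
    -- N 3 (-4) = N 2 1 + k, N (-2) 3 = N 1 1 + k
    have e3 := hng2 3 4 (by norm_num)
    have e4 := hsw 4 3 (by norm_num)
    have e5 := hst 2 3 (by norm_num)
    have e6 := hsw 3 2 (by norm_num)
    rw [e3, e4, v43, v2] at e1
    rw [e5, e6, v1] at e2
    linear_combination -e2 + e1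
  -- translation by seven
  have ht : ∀ p q : ℤ, (p ≠ 0 ∨ q ≠ 0) → N (p + 7 * q) q = N p q := by
    obtain ⟨k, hk⟩ := hG 1 1 0 1 (by norm_num)
    have e1 := hk 1 0 (by norm_num)
    norm_num at e1
    intro p q h
    have e2 := hk p q h
    rw [e1, add_zero] at e2
    norm_num at e2
    exact e2
  -- the involutions c2, c3
  have hc2 : ∀ p q : ℤ, (p ≠ 0 ∨ q ≠ 0) → N (7 * p - 16 * q) (3 * p - 7 * q) = -N p q := by
    obtain ⟨k, hk⟩ := hG 3 (-1) 1 (-16) (by norm_num)
    have e1 := hk 2 1 (by norm_num)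
    norm_num at e1
    have e2 := hng 1 2 (by norm_num)
    have e3 := hsw 2 1 (by norm_num)
    rw [e2, e3, v2] at e1
    intro p q h
    have e4 := hk p q h
    have e5 := hsw (3 * p - 7 * q) (7 * p - 16 * q) (by omega)
    have e6 : N (3 * p + 7 * -1 * q) (7 * 1 * p + -16 * q) = N (3 * p - 7 * q) (7 * p - 16 * q) := by
      congr 1 <;> ring
    rw [e6] at e4
    rw [e5, e4]
    linear_combination e1
  have hc3 : ∀ p q : ℤ, (p ≠ 0 ∨ q ≠ 0) →
      N (14 * p - 39 * q) (5 * p - 14 * q) = -N p q + 2 * N 3 1 := by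
    obtain ⟨k, hk⟩ := hG 5 (-2) 2 (-39) (by norm_num)
    have e1 := hk 3 1 (by norm_num)
    norm_num at e1
    have e3 := hsw 3 1 (by norm_num)
    rw [e3] at e1
    intro p q h
    have e4 := hk p q h
    have e5 := hsw (5 * p - 14 * q) (14 * p - 39 * q) (by omega)
    have e6 : N (5 * p + 7 * -2 * q) (7 * 2 * p + -39 * q) = N (5 * p - 14 * q) (14 * p - 39 * q) := by
      congr 1 <;> ring
    rw [e6] at e4
    rw [e5, e4]
    linear_combination e1
  have v3 : N 3 1 = 0 := by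
    -- c2 c3 c2 = c3 c2 c3, at the cusp ∞
    have a1 := hc2 1 0 (by norm_num)
    norm_num at a1
    have a2 := hc3 7 3 (by norm_num)
    norm_num at a2
    have a3 := hc2 (-19) (-7) (by norm_num)
    norm_num at a3
    have b1 := hc3 1 0 (by norm_num)
    norm_num at b1
    have b2 := hc2 14 5 (by norm_num)
    norm_num at b2
    have b3 := hc3 18 7 (by norm_num)
    norm_num at b3
    linear_combination (1 / 6 : ℂ) * (a3 - a2 + a1) - (1 / 6 : ℂ) * (b3 - b2 + b1)
  have v4 : N 4 1 = 0 := by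
    have e1 := ht (-3) 1 (by norm_num)
    have e2 := hst 3 1 (by norm_num)
    norm_num at e1
    rw [e1, e2, v3]
  have v52 : N 5 2 = 0 := by
    have e1 := hc2 3 1 (by norm_num)
    norm_num at e1
    rw [e1, v3, neg_zero]
  have hsw0 : ∀ p q : ℤ, (p ≠ 0 ∨ q ≠ 0) → N p q = 0 → N q p = 0 := by
    intro p q h h0
    rw [hsw p q h, h0, neg_zero]
  have hcus : ∀ t ∈ cus, N (t.1 : ℤ) (t.2 : ℤ) = 0 := by
    intro t ht
    simp only [cus, List.mem_cons, List.not_mem_nil, or_false] at ht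
    rcases ht with rfl | rfl | rfl | rfl | rfl | rfl | rfl | rfl | rfl | rfl | rfl
    · exact v0
    · exact hsw0 1 0 (by norm_num) v0
    · exact v1
    · exact v2
    · exact hsw0 2 1 (by norm_num) v2
    · exact v3
    · exact hsw0 3 1 (by norm_num) v3
    · exact v32
    · exact hsw0 3 2 (by norm_num) v32
    · exact v4
    · exact v52
  have hfr : ∀ a b c d : ℤ, a * d - b * c = 1 → N a c = N b d := by
    intro a b c d hd
    obtain ⟨m, hm, α, β, γ, δ, h1, ha, hb, hc, hd'⟩ := hrep.2 a b c d hd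
    have hdm := hrep.1 m hm
    obtain ⟨k, hk⟩ := hG α β γ δ (by linarith)
    have n1 : m.1 ≠ 0 ∨ m.2.2.1 ≠ 0 := by
      by_contra h
      push Not at h
      rw [h.1, h.2] at hdm
      simp at hdm
    have n2 : m.2.1 ≠ 0 ∨ m.2.2.2 ≠ 0 := by
      by_contra h
      push Not at h
      rw [h.1, h.2] at hdm
      simp at hdm
    have e1 := hk m.1 m.2.2.1 n1
    have e2 := hk m.2.1 m.2.2.2 n2
    rw [← ha, ← hc, habs _ _ n1, hcus _ (rep_cus m hm).1] at e1
    rw [← hb, ← hd', habs _ _ n2, hcus _ (rep_cus m hm).2] at e2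
    rw [e1, e2]
  obtain ⟨c, hc⟩ := hfar ℂ inferInstance N hH hfr
  have hc0 : c = 0 := by
    have := hc 1 0 (by norm_num)
    rw [v0] at this
    simpa using this.symm
  intro p q h
  rw [hc p q h, hc0]
  simp

/-- Module L2. -/
theorem hL2 (h1 : S7Rep) (h2 : StFar) : S7L2 := by
  intro K hK hW hst hK1 hK2
  obtain ⟨hH, hG⟩ := hK
  have hneg : ∀ p q : ℤ, (p ≠ 0 ∨ q ≠ 0) → K (-p) (-q) = K p q := by
    intro p q h
    have := hH (-1) p q (by norm_num) h
    simpa using this
  have hst' : ∀ p q : ℤ, (p ≠ 0 ∨ q ≠ 0) → K (-p) q = K p q := by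
    obtain ⟨c, hc⟩ := hst
    have e1 := hc 1 0 (by norm_num)
    have e2 := hneg 1 0 (by norm_num)
    simp only [act] at e1 hc
    norm_num at e1 e2
    rw [e2] at e1
    have hc0 : c = 0 := by linear_combination -e1
    intro p q h
    have e3 := hc p q h
    rw [hc0, add_zero] at e3
    norm_num at e3
    exact e3
  have key := core h1 h2 (fun p q => K p (7 * q) - K 1 0) ?_ ?_ ?_ ?_ ?_ ?_ ?_
  · refine ⟨K 1 0, fun p q h => ?_⟩
    have e1 := hH 7 p q (by norm_num) h
    have e2 := key (7 * p) q (by omega)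
    rw [e1] at e2
    simp only [Pi.zero_apply, zero_add]
    linear_combination e2
  · intro k p q hk h
    have := hH k p (7 * q) hk (by omega)
    have e : 7 * (k * q) = k * (7 * q) := by ring
    simp only [e, this]
  · intro p q h
    simp only [hst' p (7 * q) (by omega)]
  · obtain ⟨c, hc⟩ := hW
    simp only [act, Pi.neg_apply] at hc
    have e0 : ∀ p q : ℤ, (p ≠ 0 ∨ q ≠ 0) → K (-q) (7 * p) = -K p (7 * q) + c := by
      intro p q h
      have e1 := hc p (7 * q) (by omega)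
      have e2 := hH 7 (-q) (7 * p) (by norm_num) (by omega)
      rw [← e1, ← e2]
      congr 1 <;> ring
    have e1 := e0 1 1 (by norm_num)
    have e2 := hst' 1 7 (by norm_num)
    norm_num at e1 e2
    rw [e2, ← hK1] at e1
    intro p q h
    rw [e0 p q h]
    linear_combination -e1
  · intro a b c d hd
    obtain ⟨k, hk⟩ := hG a b (49 * c) d (by linarith) (by simp) ⟨c, by norm_num⟩
    refine ⟨k, fun p q h => ?_⟩
    have e1 := hk p (7 * q) (by omega)
    simp only [act] at e1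
    have e2 : K (a * p + 7 * b * q) (7 * (7 * c * p + d * q)) = K (a * p + b * (7 * q)) (49 * c * p + d * (7 * q)) := by
      congr 1 <;> ring
    rw [e2, e1]
    ring
  · simp
  · norm_num
    rw [hK1, sub_self]
  · norm_num
    rw [← hK2, hK1, sub_self]

end Pool.Agent.Helper2.S7
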